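import Pool.Agent.EXAM.C25

namespace Pool.Agent.Results.MP_e27e95_co.Exact

open Pool.Agent.Judicious

/-- The exact value of the constant of the problem for every `k ≥ 1`:
`c(k) = (k - 1) / (2 (2 k - 1))`. -/
theorem result : ∀ k : ℕ, 1 ≤ k → c k = ((k : ℝ) - 1) / (2 * (2 * k - 1)) :=
  fun k hk => Pool.Agent.Exact.c_exact_all k hk

end Pool.Agent.Results.MP_e27e95_co.Exact
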